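import Pool.Agent.H656R2.Annih.Final
import Pool.Agent.H656R2.Annih.PolyA

open Pool.Agent.H656R2.Annih

/-- **`k`-annihilation games are solvable in polynomial time, for every fixed `k`.**

For every `k ≥ 1` (and for both conventions about tokens on vertices without followers) there is a
function `F`, computable by a Turing machine in time polynomial in the length of its input,
which for every finite digraph `E` and every position `S` of `k`-annihilation on `E` tells whether
`S` lies in `P`, `N` or `O`, and in the last two cases gives an optimal next move. The digraph is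
given by its adjacency matrix, so the input has length at most `4 (n + 1) ^ 2` for a
digraph with `n` vertices. -/
theorem Pool.Agent.Results.MP_474c54_lc.PolyTimeAnnihilation.result
    (sinks : Bool) (k : ℕ) (hk : 1 ≤ k) :
    ∃ F : List (List Bool) × List Bool → (Bool × Bool) × (List Bool × List Bool),
      Nonempty (Turing.TM2ComputableInPolyTime Pool.Agent.H656R2.NPC.bits Pool.Agent.H656R2.NPC.bits F) ∧
      ∀ {n : ℕ} (E : Fin n → Fin n → Bool) (S : Finset (Fin n)),
        Correct sinks k E S (F (encGraph E, encSet S)) ∧
        (Pool.Agent.H656R2.NPC.bits (encGraph E, encSet S)).length ≤ 4 * (n + 1) ^ 2 := by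
  obtain ⟨k, rfl⟩ : ∃ k', k = k' + 1 := ⟨k - 1, by omega⟩
  refine ⟨Algo.solve sinks k, Pool.Agent.H656R2.NPC.H656Annih.solve_polyTime sinks k, ?_⟩
  intro n E S
  refine ⟨solve_correct sinks k E S, ?_⟩
  rw [Pool.Agent.H656R2.NPC.bits_length, Pool.Agent.H656R2.NPC.sz_pair]
  have h1 := Pool.Agent.H656R2.NPC.sz_listBool_le (encSet S)
  rw [length_encSet] at h1
  have h2 := Pool.Agent.H656R2.NPC.sz_le_length_mul (encGraph E) (4 * n + 1) (by
    intro v hv
    have h3 := Pool.Agent.H656R2.NPC.sz_listBool_le v
    have h4 : v.length = n := by
      simp only [encGraph, List.mem_ofFn] at hv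
      obtain ⟨i, rfl⟩ := hv
      simp
    rw [h4] at h3
    exact h3)
  rw [length_encGraph] at h2
  nlinarith
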